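import Pool.Agent.R153.DS4

set_option autoImplicit false

/-! MP_adc81a_nt: `-1` is a multiple root of the Hankel determinant of size 55 of the weighted
binary digit sum. -/

namespace Pool.Agent.Results.MP_adc81a_nt.DoubleRoot

open Polynomial

/-- the polynomial `S(n,t)`, the sum of `t ^ j` over the positions `j` of the binary digits one
of `n` -/
noncomputable def S (n : ℕ) : ℤ[X] := Nat.ofDigits (X : ℤ[X]) (Nat.digits 2 n)

/-- the Hankel determinant of size `n` of the sequence `S` -/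
noncomputable def H (n : ℕ) : ℤ[X] := (Matrix.of fun i j : Fin n => S (i + j)).det

theorem aeval_H {R : Type} [CommRing R] [Algebra ℤ R] (t : R) (n : ℕ) :
    aeval t (H n) = R153.DS.Hk (R153.DS.ds t) n := by
  have h := R153.DS.Hk_map (X : ℤ[X]) ((aeval t : ℤ[X] →ₐ[ℤ] R) : ℤ[X] →+* R) n
  have hX : ((aeval t : ℤ[X] →ₐ[ℤ] R) : ℤ[X] →+* R) X = t := aeval_X t
  rw [hX] at h
  exact h

theorem double_root (P : ℤ[X]) (h : aeval R153.DS4.tt P = 0) :
    P.eval (-1) = 0 ∧ P.derivative.eval (-1) = 0 := by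
  have h1 : R153.DS4.tt = algebraMap ℤ (DualNumber ℤ) (-1) + R153.DS4.mk 0 1 := rfl
  have h2 : R153.DS4.mk 0 1 ^ 2 = 0 := rfl
  rw [h1, aeval_add_of_sq_eq_zero _ _ _ h2, aeval_algebraMap_apply, aeval_algebraMap_apply] at h
  have h3 := congrArg TrivSqZeroExt.fst h
  have h4 := congrArg TrivSqZeroExt.snd h
  have f1 : TrivSqZeroExt.fst (R153.DS4.mk 0 1) = 0 := rfl
  have f2 : TrivSqZeroExt.snd (R153.DS4.mk 0 1) = 1 := rfl
  have e1 : aeval (-1 : ℤ) P = P.eval (-1) := by rw [coe_aeval_eq_eval]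
  have e2 : aeval (-1 : ℤ) P.derivative = P.derivative.eval (-1) := by rw [coe_aeval_eq_eval]
  rw [e1, e2] at h3 h4
  simp [f1, f2] at h3 h4
  exact ⟨h3, h4⟩

/-- there are `n ≥ 2` and a complex number `t₀`, not zero and not twice a root of unity, which is a
multiple root of the nonzero polynomial `H n`; in fact `n = 55` and `t₀ = -1` -/
theorem result :
    (∃ n : ℕ, 2 ≤ n ∧ ∃ t₀ : ℂ, t₀ ≠ 0 ∧ (∀ (ζ : ℂ) (m : ℕ), 1 ≤ m → ζ ^ m = 1 → t₀ ≠ 2 * ζ) ∧
      (H n).map (Int.castRingHom ℂ) ≠ 0 ∧ (X - C t₀) ^ 2 ∣ (H n).map (Int.castRingHom ℂ)) ∧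
    (X + 1) ^ 2 ∣ H 55 := by
  have h0 : aeval R153.DS4.tt (H 55) = 0 := by
    rw [aeval_H]
    exact R153.DS4.vA_55
  obtain ⟨r1, r2⟩ := double_root _ h0
  have hne : (H 55).map (Int.castRingHom ℂ) ≠ 0 := by
    intro h
    have h4 : (4 : ℝ) ≤ ‖(4 : ℂ)‖ := by norm_num
    have h1 := R153.DS.A_ne h4 55 (by norm_num)
    rw [← aeval_H] at h1
    apply h1
    rw [aeval_def, eval₂_eq_eval_map]
    have : algebraMap ℤ ℂ = Int.castRingHom ℂ := rfl
    rw [this, h, eval_zero]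
  have hne' : H 55 ≠ 0 := by
    intro h
    rw [h, Polynomial.map_zero] at hne
    exact hne rfl
  have hdvd : (X + 1) ^ 2 ∣ H 55 := by
    have h1 : 1 < (H 55).rootMultiplicity (-1) :=
      (one_lt_rootMultiplicity_iff_isRoot hne').2 ⟨r1, r2⟩
    have h2 := (le_rootMultiplicity_iff hne').1 (show 2 ≤ (H 55).rootMultiplicity (-1) from h1)
    have h3 : (X - C (-1 : ℤ)) = X + 1 := by
      rw [C_neg, C_1, sub_neg_eq_add]
    rw [h3] at h2
    exact h2
  refine ⟨⟨55, by norm_num, -1, by norm_num, ?_, hne, ?_⟩, hdvd⟩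
  · intro ζ m hm hζ h
    have h1 : ‖ζ‖ = 1 := by
      have := congrArg norm hζ
      rw [norm_pow, norm_one] at this
      exact (pow_eq_one_iff_of_nonneg (norm_nonneg _) (by omega)).1 this
    have h2 := congrArg norm h
    rw [norm_neg, norm_one, norm_mul, h1] at h2
    norm_num at h2
  · have h1 := Polynomial.map_dvd (Int.castRingHom ℂ) hdvd
    rw [Polynomial.map_pow, Polynomial.map_add, map_X, Polynomial.map_one] at h1
    have h3 : (X - C (-1 : ℂ)) = X + 1 := by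
      rw [C_neg, C_1, sub_neg_eq_add]
    rw [h3]
    exact h1

end Pool.Agent.Results.MP_adc81a_nt.DoubleRoot
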